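import Pool.Agent.Q246.EL.Base

set_option autoImplicit false

/-!
# The theorems for the line `Re s = 1`
-/

namespace Pool.Agent.Q246.EL

open Filter Topology Complex MeasureTheory
open Pool.Agent.Q246.NC
open Pool.Agent.W169.HF (heat)
open scoped ComplexConjugate

/-- translation by `1/2` -/
noncomputable def tau (z : ℂ) : ℂ := z + 1 / 2

theorem tau_inj : Function.Injective tau := fun a b h => by
  unfold tau at h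
  exact add_right_cancel h

theorem tau_re (z : ℂ) : (tau z).re = z.re + 1 / 2 := by simp [tau]

theorem tau_im (z : ℂ) : (tau z).im = z.im := by simp [tau]

theorem mem_tau {A : Set ℂ} {s : ℂ} : s ∈ tau '' A ↔ s - 1 / 2 ∈ A := by
  constructor
  · rintro ⟨z, hz, rfl⟩
    have h : tau z - 1 / 2 = z := by unfold tau; ring
    rwa [h]
  · intro h
    exact ⟨s - 1 / 2, h, by unfold tau; ring⟩

section tr
variable {c : ℝ} {Λ₀ Λ : ℂ → ℂ}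

theorem order_tau {F G : ℂ → ℂ} {v : ℂ} (hv : v ≠ 0) (hF : Differentiable ℂ F)
    (hG : ∀ s, G s = v * F (s - 1 / 2)) (s : ℂ) : analyticOrderNatAt G s = analyticOrderNatAt F (s - 1 / 2) := by
  have h1 : G = (fun _ => v) * (F ∘ fun s => s - 1 / 2) := by
    funext z
    rw [hG z]
    rfl
  have hp : AnalyticAt ℂ (fun s : ℂ => s - 1 / 2) s := by fun_prop
  have hp' : deriv (fun s : ℂ => s - 1 / 2) s ≠ 0 := by
    rw [deriv_sub_const, deriv_id'']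
    exact one_ne_zero
  have h2 : analyticOrderAt (F ∘ fun s => s - 1 / 2) s = analyticOrderAt F (s - 1 / 2) :=
    analyticOrderAt_comp_of_deriv_ne_zero hp hp'
  have h3 : analyticOrderAt (fun _ : ℂ => v) s = 0 := by
    rw [AnalyticAt.analyticOrderAt_eq_zero analyticAt_const]
    exact hv
  have h4 : analyticOrderAt G s = analyticOrderAt F (s - 1 / 2) := by
    rw [h1, analyticOrderAt_mul analyticAt_const ((hF.analyticAt _).comp hp), h2, h3, zero_add]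
  unfold analyticOrderNatAt
  rw [h4]

theorem num_tau {F G : ℂ → ℂ} {v : ℂ} (hv : v ≠ 0) (hF : Differentiable ℂ F)
    (hG : ∀ s, G s = v * F (s - 1 / 2)) (A : Set ℂ) : numL G (tau '' A) = numL F A := by
  unfold numL
  rw [finsum_mem_image (tau_inj.injOn)]
  refine finsum_congr fun z => finsum_congr fun _ => ?_
  rw [order_tau hv hF hG]
  congr 1
  unfold tau
  ring

theorem iter_tau (h : ∀ s : ℂ, Λ s = c * Λ₀ (s - 1 / 2)) (n : ℕ) (s : ℂ) :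
    iteratedDeriv n Λ s = c * iteratedDeriv n Λ₀ (s - 1 / 2) := by
  have h0 : Λ = fun s => (c : ℂ) * Λ₀ (s - 1 / 2) := funext h
  rw [h0, iteratedDeriv_const_mul_field]
  congr 1
  exact congrFun (iteratedDeriv_comp_sub_const n Λ₀ (1 / 2)) s

theorem heat_tau (h : ∀ s : ℂ, Λ s = c * Λ₀ (s - 1 / 2)) (t : ℝ) (s : ℂ) :
    heat t Λ s = c * heat t Λ₀ (s - 1 / 2) := by
  unfold heat
  rw [mul_left_comm, ← MeasureTheory.integral_const_mul (c : ℂ)]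
  congr 1
  refine MeasureTheory.integral_congr_ae (Filter.Eventually.of_forall fun y => ?_)
  show _ * Λ _ = (c : ℂ) * (_ * Λ₀ _)
  rw [h]
  have e : (s + ((2 * Real.sqrt t * y : ℝ) : ℂ) - 1 / 2) = s - 1 / 2 + ((2 * Real.sqrt t * y : ℝ) : ℂ) := by
    ring
  rw [e]
  ring

theorem re_tau (s : ℂ) : (s - 1 / 2).re = s.re - 1 / 2 := by simp

theorem im_tau (s : ℂ) : (s - 1 / 2).im = s.im := by simp

theorem diff_tau {Λ₀ Λ : ℂ → ℂ} {c : ℝ} (hd : Differentiable ℂ Λ₀) (h : ∀ s : ℂ, Λ s = c * Λ₀ (s - 1 / 2)) :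
    Differentiable ℂ Λ := by
  rw [show Λ = fun s => (c : ℂ) * Λ₀ (s - 1 / 2) from funext h]
  exact (hd.comp (by fun_prop)).const_mul _

/-- The zeros of the `n`-th derivative of `Λ` with imaginary part in `(0, T]`. -/
def Z1 (Λ : ℂ → ℂ) (n : ℕ) (T : ℝ) : Set ℂ := {s | iteratedDeriv n Λ s = 0 ∧ 0 < s.im ∧ s.im ≤ T}

/-- Those off the line `Re s = 1` or multiple. -/
def E1 (Λ : ℂ → ℂ) (n : ℕ) (T : ℝ) : Set ℂ :=
  {s | s ∈ Z1 Λ n T ∧ (s.re ≠ 1 ∨ iteratedDeriv (n + 1) Λ s = 0)}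

theorem re_iff (s : ℂ) : (s - 1 / 2).re ≠ 1 / 2 ↔ s.re ≠ 1 := by
  rw [re_tau, Ne, Ne, sub_eq_iff_eq_add]
  norm_num

theorem derivs1 {κ : ℝ} (h : Full κ Λ₀) (hc : 0 < c) (hΛ : ∀ s : ℂ, Λ s = c * Λ₀ (s - 1 / 2)) :
    (∀ (n : ℕ) (T : ℝ), (Z1 Λ n T).Finite) ∧
    ∃ c C : ℝ, 0 < c ∧ 0 < C ∧
      (∀ (n : ℕ) (T : ℝ), (numL (iteratedDeriv n Λ) (E1 Λ n T) : ℝ) ≤
        C * Real.exp (-(c * n)) * numL (iteratedDeriv n Λ) (Z1 Λ n T)) ∧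
      (∀ (n : ℕ) (T : ℝ), 2 ≤ T → (numL (iteratedDeriv n Λ) (E1 Λ n T) : ℝ) ≤
        C * Real.exp (-(c * n)) * T * Real.log T) := by
  have hc0 : (c : ℂ) ≠ 0 := Complex.ofReal_ne_zero.2 hc.ne'
  have hd := h.cls.diff
  have hdn : ∀ n, Differentiable ℂ (iteratedDeriv n Λ₀) := fun n =>
    Pool.Agent.H24R2.JP.ParCircAux.diff_iter hd n
  have hz : ∀ (n : ℕ) (s : ℂ), iteratedDeriv n Λ s = 0 ↔ iteratedDeriv n Λ₀ (s - 1 / 2) = 0 := fun n s => by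
    rw [iter_tau hΛ, mul_eq_zero]
    exact ⟨fun h => h.resolve_left hc0, Or.inr⟩
  have hZ : ∀ (n : ℕ) (T : ℝ), Z1 Λ n T = tau '' ZL Λ₀ n T := by
    intro n T
    ext s
    rw [mem_tau]
    show (iteratedDeriv n Λ s = 0 ∧ 0 < s.im ∧ s.im ≤ T) ↔
      (iteratedDeriv n Λ₀ (s - 1 / 2) = 0 ∧ 0 < (s - 1 / 2).im ∧ (s - 1 / 2).im ≤ T)
    rw [hz, im_tau]
  have hE : ∀ (n : ℕ) (T : ℝ), E1 Λ n T = tau '' EL Λ₀ n T := by
    intro n T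
    ext s
    rw [mem_tau]
    show (s ∈ Z1 Λ n T ∧ _) ↔ (s - 1 / 2 ∈ ZL Λ₀ n T ∧ ((s - 1 / 2).re ≠ 1 / 2 ∨
      iteratedDeriv (n + 1) Λ₀ (s - 1 / 2) = 0))
    rw [hZ, mem_tau, hz, re_iff]
  obtain ⟨h1, k, C, hk, hC, h2, h3⟩ := h.derivsL
  refine ⟨fun n T => ?_, k, C, hk, hC, fun n T => ?_, fun n T hT => ?_⟩
  · rw [hZ]
    exact (h1 n T).image _
  · rw [hZ, hE, num_tau hc0 (hdn n) (iter_tau hΛ n), num_tau hc0 (hdn n) (iter_tau hΛ n)]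
    exact h2 n T
  · rw [hE, num_tau hc0 (hdn n) (iter_tau hΛ n)]
    exact h3 n T hT

/-- Zeros with imaginary part in `(T, 2T]` off the line `Re s = 1` or multiple. -/
def EH1 (F : ℂ → ℂ) (T : ℝ) : Set ℂ := {s | s ∈ ZH F T ∧ (s.re ≠ 1 ∨ deriv F s = 0)}

theorem heat1_diff {κ : ℝ} (h : Full κ Λ₀) (hΛ : ∀ s : ℂ, Λ s = c * Λ₀ (s - 1 / 2)) {t : ℝ} (ht : 0 ≤ t) :
    Differentiable ℂ (heat t Λ) :=
  diff_tau (h.heat_diff ht) (heat_tau hΛ t)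

theorem flow1 {κ : ℝ} (h : Full κ Λ₀) (hc : 0 < c) (hΛ : ∀ s : ℂ, Λ s = c * Λ₀ (s - 1 / 2)) :
    (∀ t T : ℝ, 0 ≤ t → (ZH (heat t Λ) T).Finite) ∧
    ∃ c C : ℝ, 0 < c ∧ 0 < C ∧ ∀ t T : ℝ, 0 < t → t ≤ 1 / 8 → 2 ≤ T →
      (numL (heat t Λ) (EH1 (heat t Λ) T) : ℝ) ≤
        C * Real.exp (-(c * t * Real.log T ^ 2)) * numL (heat t Λ) (ZH (heat t Λ) T) ∧
      (numL (heat t Λ) (EH1 (heat t Λ) T) : ℝ) ≤ C * Real.exp (-(c * t * Real.log T ^ 2)) * T * Real.log T := by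
  have hc0 : (c : ℂ) ≠ 0 := Complex.ofReal_ne_zero.2 hc.ne'
  have hz : ∀ (t : ℝ) (s : ℂ), heat t Λ s = 0 ↔ heat t Λ₀ (s - 1 / 2) = 0 := fun t s => by
    rw [heat_tau hΛ, mul_eq_zero]
    exact ⟨fun h => h.resolve_left hc0, Or.inr⟩
  have hder : ∀ (t : ℝ), ∀ s : ℂ, deriv (heat t Λ) s = 0 ↔ deriv (heat t Λ₀) (s - 1 / 2) = 0 := by
    intro t s
    have h1 := iter_tau (heat_tau hΛ t) 1 s
    rw [iteratedDeriv_one, iteratedDeriv_one] at h1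
    rw [h1, mul_eq_zero]
    exact ⟨fun h => h.resolve_left hc0, Or.inr⟩
  have hZ : ∀ (t T : ℝ), ZH (heat t Λ) T = tau '' ZH (heat t Λ₀) T := by
    intro t T
    ext s
    rw [mem_tau]
    show (heat t Λ s = 0 ∧ T < s.im ∧ s.im ≤ 2 * T) ↔
      (heat t Λ₀ (s - 1 / 2) = 0 ∧ T < (s - 1 / 2).im ∧ (s - 1 / 2).im ≤ 2 * T)
    rw [hz, im_tau]
  have hE : ∀ (t T : ℝ), EH1 (heat t Λ) T = tau '' EH (heat t Λ₀) T := by
    intro t T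
    ext s
    rw [mem_tau]
    show (s ∈ ZH (heat t Λ) T ∧ _) ↔ (s - 1 / 2 ∈ ZH (heat t Λ₀) T ∧ ((s - 1 / 2).re ≠ 1 / 2 ∨
      deriv (heat t Λ₀) (s - 1 / 2) = 0))
    rw [hZ, mem_tau, hder, re_iff]
  obtain ⟨h1, k, C, hk, hC, h2⟩ := h.flowL
  refine ⟨fun t T ht => ?_, k, C, hk, hC, fun t T ht ht8 hT => ?_⟩
  · rw [hZ]
    exact (h1 t T ht).image _
  · rw [hZ, hE t T, num_tau hc0 (h.heat_diff ht.le) (heat_tau hΛ t),
      num_tau hc0 (h.heat_diff ht.le) (heat_tau hΛ t)]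
    exact h2 t T ht ht8 hT

/-- The zeros of `Λ` with imaginary part in `(0, T]` and distance at least `d` from the line `Re s = 1`. -/
def O1 (Λ : ℂ → ℂ) (d T : ℝ) : Set ℂ := {s | Λ s = 0 ∧ d ≤ |s.re - 1| ∧ 0 < s.im ∧ s.im ≤ T}

theorem off1 {κ : ℝ} (h : Full κ Λ₀) (hc : 0 < c) (hΛ : ∀ s : ℂ, Λ s = c * Λ₀ (s - 1 / 2)) {k : ℝ} (hk : k < 1) :
    ∃ C : ℝ, 0 < C ∧ ∀ d T : ℝ, 0 ≤ d → 2 ≤ T →
      (O1 Λ d T).Finite ∧ (numL Λ (O1 Λ d T) : ℝ) ≤ C * T ^ (1 - k * d) * Real.log T := by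
  have hc0 : (c : ℂ) ≠ 0 := Complex.ofReal_ne_zero.2 hc.ne'
  have hz : ∀ (s : ℂ), Λ s = 0 ↔ Λ₀ (s - 1 / 2) = 0 := fun s => by
    rw [hΛ, mul_eq_zero]
    exact ⟨fun h => h.resolve_left hc0, Or.inr⟩
  have hO : ∀ d T : ℝ, O1 Λ d T = tau '' OL Λ₀ d T := by
    intro d T
    ext s
    rw [mem_tau]
    show (Λ s = 0 ∧ d ≤ |s.re - 1| ∧ 0 < s.im ∧ s.im ≤ T) ↔
      (Λ₀ (s - 1 / 2) = 0 ∧ d ≤ |(s - 1 / 2).re - 1 / 2| ∧ 0 < (s - 1 / 2).im ∧ (s - 1 / 2).im ≤ T)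
    rw [hz, im_tau, re_tau, show s.re - 1 / 2 - 1 / 2 = s.re - 1 by ring]
  obtain ⟨C, hC, h1⟩ := h.offL hk
  refine ⟨C, hC, fun d T hd hT => ?_⟩
  obtain ⟨h2, h3⟩ := h1 d T hd hT
  rw [hO, num_tau hc0 h.cls.diff hΛ]
  exact ⟨h2.image _, h3⟩

theorem grow1 {κ : ℝ} (h : Full κ Λ₀) (hc : 0 < c) (hΛ : ∀ s : ℂ, Λ s = c * Λ₀ (s - 1 / 2)) {k : ℝ} (hk : k < 1) :
    ∃ C : ℝ, 0 < C ∧ ∀ r T : ℝ, 0 ≤ r → 2 ≤ T →
      volume {t : ℝ | 0 ≤ t ∧ t ≤ T ∧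
        ¬ StrictMonoOn (fun x : ℝ => ‖Λ (1 + x + t * I)‖) (Set.Ici (r / Real.log T))} ≤
      ENNReal.ofReal (C * Real.exp (-(k * r)) * T) := by
  have hc0 : (c : ℂ) ≠ 0 := Complex.ofReal_ne_zero.2 hc.ne'
  obtain ⟨C, hC, h1⟩ := h.grow hk
  refine ⟨C, hC, fun r T hr hT => le_trans (measure_mono ?_) (h1 r T hr hT)⟩
  rintro t ⟨h1, h2, h3⟩
  refine ⟨h1, h2, fun h4 => h3 ?_⟩
  intro x hx y hy hxy
  have h5 := h4 hx hy hxy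
  simp only at h5
  show ‖Λ (1 + x + t * I)‖ < ‖Λ (1 + y + t * I)‖
  rw [hΛ, hΛ, norm_mul, norm_mul]
  have e1 : ∀ x : ℝ, (1 + (x : ℂ) + t * I - 1 / 2) = 1 / 2 + x + t * I := fun x => by ring
  rw [e1, e1]
  exact mul_lt_mul_of_pos_left h5 (norm_pos_iff.2 hc0)

end tr

end Pool.Agent.Q246.EL
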