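import Pool.Agent.Q246.EL.Defs
import Pool.Agent.Q246.NC.Hor
import Pool.Agent.Q246.NC.Euler

set_option autoImplicit false

/-!
# Elliptic curves over number fields attached to newforms: the completed L-function
-/

namespace Pool.Agent.Q246.EL

open UpperHalfPlane hiding I
open MatrixGroups CongruenceSubgroup Filter Topology Complex NumberField IsDedekindDomain
open Pool.Agent.Q246.NC
open W388 (IsNewfC lamC lamC_zero)
open scoped ComplexConjugate

/-! ### the normalised functions -/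

/-- lists, with series -/
theorem full_listS {ι : Type} (N k : ι → ℕ) (S : ι → ℂ → ℂ)
    (h : ∀ i, ∃ Λ L : ℂ → ℂ, Full 1 Λ ∧ (∃ w : ℂ, ‖w‖ = 1 ∧ ∀ s : ℂ, Λ (1 - s) = w * conj (Λ (conj s))) ∧
      Differentiable ℂ L ∧ (∀ s : ℂ, 0 < s.re → Λ s = gfac (N i) (k i) s * L s) ∧
      ∀ s : ℂ, 1 < s.re → L s = S i s)
    (l : List ι) (hl : l ≠ []) :
    ∃ Λ L : ℂ → ℂ, Full (l.length : ℝ) Λ ∧ (∃ w : ℂ, ‖w‖ = 1 ∧ ∀ s : ℂ, Λ (1 - s) = w * conj (Λ (conj s))) ∧
      Differentiable ℂ L ∧ (∀ s : ℂ, 0 < s.re → Λ s = (l.map fun i => gfac (N i) (k i) s).prod * L s) ∧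
        ∀ s : ℂ, 1 < s.re → L s = (l.map fun i => S i s).prod := by
  induction l with
  | nil => exact absurd rfl hl
  | cons a l ih =>
    obtain ⟨Λ1, L1, h1, ⟨w1, hw1, f1⟩, d1, e1, g1⟩ := h a
    rcases eq_or_ne l [] with rfl | hne
    · refine ⟨Λ1, L1, by simpa using h1, ⟨w1, hw1, f1⟩, d1, fun s hs => ?_, fun s hs => ?_⟩
      · simpa using e1 s hs
      · simpa using g1 s hs
    · obtain ⟨Λ2, L2, h2, ⟨w2, hw2, f2⟩, d2, e2, g2⟩ := ih hne
      refine ⟨fun s => Λ2 s * Λ1 s, fun s => L1 s * L2 s, ?_, ⟨w2 * w1, by rw [norm_mul, hw1, hw2, one_mul],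
        fun s => ?_⟩, d1.mul d2, fun s hs => ?_, fun s hs => ?_⟩
      · have := h2.mul h1
        rw [List.length_cons]
        push_cast
        exact this
      · simp only
        rw [f1, f2, map_mul]
        ring
      · simp only [List.map_cons, List.prod_cons]
        rw [e1 s hs, e2 s hs]
        ring
      · simp only [List.map_cons, List.prod_cons]
        rw [g1 s hs, g2 s hs]

theorem conv (g : Newform) : ∃ η : ℂ, IsNewfC g.N ((2 : ℕ) : ℤ) g.ψ g.f η := by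
  have hg := g.isNewform
  obtain ⟨w, hw, hfr⟩ := hg.fricke
  refine ⟨w * I ^ 2, fun γ hγ τ => ?_, hg.one, hg.mul, fun p j hp => ?_, hg.real, ?_, fun τ τ' τc h2 h3 => ?_⟩
  · rw [zpow_natCast]
    exact hg.neb γ hγ τ
  · have h2 : (((2 : ℕ) : ℤ) - 1) = ((1 : ℕ) : ℤ) := by norm_num
    rw [h2, zpow_natCast, pow_one]
    exact hg.pow p j hp
  · rw [norm_mul, norm_pow, Complex.norm_I, one_pow, mul_one, hw]
  · rw [zpow_natCast, div_pow]
    have h4 : (I : ℂ) ^ 2 ≠ 0 := pow_ne_zero _ Complex.I_ne_zero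
    have h5 : w * I ^ 2 * (((Real.sqrt g.N : ℝ) * (τ : ℂ)) ^ 2 / I ^ 2) * conj (g.f τc) =
        w * ((Real.sqrt g.N : ℝ) * (τ : ℂ)) ^ 2 * conj (g.f τc) := by
      field_simp
    rw [h5]
    exact hfr τ τ' τc h2 h3

theorem single (g : Newform) : ∃ Λ L : ℂ → ℂ, Full 1 Λ ∧
    (∃ w : ℂ, ‖w‖ = 1 ∧ ∀ s : ℂ, Λ (1 - s) = w * conj (Λ (conj s))) ∧ Differentiable ℂ L ∧
    (∀ s : ℂ, 0 < s.re → Λ s = gfac g.N 2 s * L s) ∧ ∀ s : ℂ, 1 < s.re → L s = g.L (s + 1 / 2) := by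
  have : NeZero g.N := ⟨by have := g.N_pos; omega⟩
  obtain ⟨η, hf⟩ := conv g
  obtain ⟨Λ, L, hF, hfe, hd, he, hp⟩ := full_newfE (k := 2) (by norm_num) hf
  refine ⟨Λ, L, hF, hfe, hd, he, fun s hs => ?_⟩
  have hfr := frm_newfC (k := 2) (by norm_num) hf
  have h1 : L s = ∑' n : ℕ, lamC g.f n * (n : ℂ) ^ (-s) := by
    refine (hp s hs).unique ?_
    refine (frm_euler hfr hs).congr_fun fun p => ?_
    rw [nco_eq]
  rw [h1]
  unfold Newform.L LSeries
  refine tsum_congr fun n => ?_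
  rcases Nat.eq_zero_or_pos n with rfl | hn
  · rw [LSeries.term_zero, hfr.zero, zero_mul]
  · rw [LSeries.term_of_ne_zero hn.ne', ← nco_eq]
    have hn0 : (n : ℂ) ≠ 0 := by exact_mod_cast hn.ne'
    have e1 : (((n : ℝ) ^ (-((((2 : ℕ) : ℝ) - 1) / 2)) : ℝ) : ℂ) = (n : ℂ) ^ (-(1 / 2) : ℂ) := by
      rw [Complex.ofReal_cpow (Nat.cast_nonneg n)]
      push_cast
      norm_num
    have e2 : (n : ℂ) ^ (s + 1 / 2) = ((n : ℂ) ^ (-(1 / 2) : ℂ))⁻¹ * ((n : ℂ) ^ (-s))⁻¹ := by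
      rw [← Complex.cpow_neg, ← Complex.cpow_neg, neg_neg, neg_neg, ← Complex.cpow_add _ _ hn0, add_comm]
    have e3 : nco (N := g.N) (k := 2) g.f n = a g.f n * (n : ℂ) ^ (-(1 / 2) : ℂ) := by
      unfold nco
      rw [e1]
      rfl
    refine (congrArg (fun x : ℂ => x * (n : ℂ) ^ (-s)) e3).trans ?_
    have h3 : (n : ℂ) ^ (-(1 / 2) : ℂ) ≠ 0 := by
      rw [Ne, Complex.cpow_eq_zero_iff]
      exact fun h => hn0 h.1
    have h4 : (n : ℂ) ^ (-s) ≠ 0 := by
      rw [Ne, Complex.cpow_eq_zero_iff]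
      exact fun h => hn0 h.1
    rw [e2, ← mul_inv, div_inv_eq_mul, mul_assoc]

/-! ### the arithmetic normalisation -/

/-- the level of a list -/
def lev (l : List Newform) : ℕ := (l.map Newform.N).prod

theorem lev_pos (l : List Newform) : 1 ≤ lev l := by
  unfold lev
  induction l with
  | nil => simp
  | cons a l ih =>
    rw [List.map_cons, List.prod_cons]
    exact Nat.mul_pos a.N_pos ih

/-- the arithmetic normalisation of the Gamma factor -/
theorem gam_arith (A n : ℕ) (hA : 1 ≤ A) (s : ℂ) :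
    (((A : ℝ) ^ (1 / 4 : ℝ) * (1 / 2) ^ n : ℝ) : ℂ) * ((A : ℂ) ^ ((s - 1 / 2) / 2) *
      (Gammaℝ ((s - 1 / 2) + (((2 : ℕ) : ℂ) - 1) / 2) * Gammaℝ ((s - 1 / 2) + (((2 : ℕ) : ℂ) + 1) / 2)) ^ n) =
    (A : ℂ) ^ (s / 2) * ((2 * (Real.pi : ℂ)) ^ (-s) * Gamma s) ^ n := by
  have hA0 : (A : ℂ) ≠ 0 := by exact_mod_cast (show A ≠ 0 by omega)
  have e1 : (s - 1 / 2) + (((2 : ℕ) : ℂ) - 1) / 2 = s := by push_cast; ring
  have e2 : (s - 1 / 2) + (((2 : ℕ) : ℂ) + 1) / 2 = s + 1 := by push_cast; ring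
  have e3 : (((A : ℝ) ^ (1 / 4 : ℝ) : ℝ) : ℂ) = (A : ℂ) ^ (1 / 4 : ℂ) := by
    rw [Complex.ofReal_cpow (Nat.cast_nonneg A)]
    push_cast
    norm_num
  have e4 : (A : ℂ) ^ (s / 2) = (A : ℂ) ^ (1 / 4 : ℂ) * (A : ℂ) ^ ((s - 1 / 2) / 2) := by
    rw [← Complex.cpow_add _ _ hA0]
    congr 1
    ring
  rw [e1, e2, Complex.Gammaℝ_mul_Gammaℝ_add_one, Complex.Gammaℂ_def, e4, Complex.ofReal_mul, e3,
    Complex.ofReal_pow]
  have e5 : (((1 / 2 : ℝ)) : ℂ) ^ n * (2 * (2 * (Real.pi : ℂ)) ^ (-s) * Gamma s) ^ n =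
      ((2 * (Real.pi : ℂ)) ^ (-s) * Gamma s) ^ n := by
    rw [← mul_pow]
    congr 1
    push_cast
    ring
  rw [← e5]
  ring

/-- the completed function of a list, in both normalisations -/
theorem exists_list (l : List Newform) (hl : l ≠ []) : ∃ (c : ℝ) (Λ₀ L : ℂ → ℂ), 0 < c ∧
    Full (l.length : ℝ) Λ₀ ∧ (∃ w : ℂ, ‖w‖ = 1 ∧ ∀ s : ℂ, Λ₀ (1 - s) = w * conj (Λ₀ (conj s))) ∧
    Differentiable ℂ L ∧
    (∀ s : ℂ, 1 / 2 < s.re → c * Λ₀ (s - 1 / 2) =
      (lev l : ℂ) ^ (s / 2) * ((2 * (Real.pi : ℂ)) ^ (-s) * Gamma s) ^ l.length * L s) ∧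
    ∀ s : ℂ, 3 / 2 < s.re → L s = (l.map fun g => g.L s).prod := by
  obtain ⟨Λ, L, hF, hfe, hd, he, hp⟩ := full_listS (fun g : Newform => g.N) (fun _ => 2)
    (fun g s => g.L (s + 1 / 2)) single l hl
  have hlev := lev_pos l
  refine ⟨(lev l : ℝ) ^ (1 / 4 : ℝ) * (1 / 2) ^ l.length, Λ, fun s => L (s - 1 / 2), ?_, hF, hfe,
    hd.comp (by fun_prop), fun s hs => ?_, fun s hs => ?_⟩
  · have : (0 : ℝ) < lev l := by exact_mod_cast hlev
    positivity
  · have h1 : 0 < (s - 1 / 2).re := by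
      simp
      linarith
    rw [he _ h1, prod_gfac, ← gam_arith _ _ hlev]
    unfold lev
    ring
  · have h1 : 1 < (s - 1 / 2).re := by
      simp
      linarith
    simp only
    rw [hp _ h1]
    simp only [sub_add_cancel]

/-! ### real coefficients -/

section curve
variable {K : Type} [Field K] [NumberField K]

theorem localFactor_conj (W : HeightOneSpectrum (𝓞 K) → WeierstrassCurve (𝓞 K))
    (v : HeightOneSpectrum (𝓞 K)) (s : ℂ) : localFactor W v (conj s) = conj (localFactor W v s) := by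
  have h1 : ∀ (m : ℕ) (z : ℂ), (m : ℂ) ^ (conj z) = conj ((m : ℂ) ^ z) := by
    intro m z
    have h := Complex.cpow_conj (m : ℂ) z (by
      rw [Complex.natCast_arg]
      exact Real.pi_pos.ne)
    rwa [Complex.conj_natCast] at h
  unfold localFactor
  rw [map_inv₀, map_add, map_sub, map_one, map_mul, map_mul, ← h1, ← h1, map_sub, Complex.conj_natCast,
    Complex.conj_natCast, map_neg, map_mul, map_neg]
  congr 3
  · split_ifs
    · rw [map_zero]
    · rw [Complex.conj_natCast]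
  · congr 2
    rw [show (2 : ℂ) = ((2 : ℕ) : ℂ) by norm_num, Complex.conj_natCast]

theorem L_conj {W : HeightOneSpectrum (𝓞 K) → WeierstrassCurve (𝓞 K)} {L : ℂ → ℂ} (hd : Differentiable ℂ L)
    (he : ∀ s : ℂ, 3 / 2 < s.re → HasProd (fun v : HeightOneSpectrum (𝓞 K) => localFactor W v s) (L s))
    (s : ℂ) : conj (L (conj s)) = L s := by
  have hd' : Differentiable ℂ (fun s => conj (L (conj s))) := by
    intro s
    have h := (hd (conj s)).conj_conj
    rw [Complex.conj_conj] at h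
    exact h
  have h1 : (fun s => conj (L (conj s))) = L := by
    refine Pool.Agent.W355.UN.Pk.uniq (G := L) hd hd' ⟨0, fun s _ => rfl⟩ ⟨2, fun s hs => ?_⟩
    have h2 : 3 / 2 < (conj s).re := by
      rw [Complex.conj_re]
      linarith
    have h3 := (he _ h2).map (starRingEnd ℂ) Complex.continuous_conj
    refine h3.unique ?_
    refine (he s (by linarith)).congr_fun fun v => ?_
    rw [Function.comp_apply, localFactor_conj, Complex.conj_conj]
  exact congrFun h1 s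

/-- **The completed L-function of `E/K`.** -/
theorem exists_el {W : HeightOneSpectrum (𝓞 K) → WeierstrassCurve (𝓞 K)} {l : List Newform}
    (h : Attached W l) : ∃ (A : ℕ) (c : ℝ) (Λ₀ L : ℂ → ℂ), 0 < c ∧ Full (Module.finrank ℚ K : ℝ) Λ₀ ∧
      IsTheCompleted W A L (fun s => c * Λ₀ (s - 1 / 2)) := by
  have hK : 0 < Module.finrank ℚ K := Module.finrank_pos
  have hl : l ≠ [] := by
    rintro rfl
    have h1 := h.1
    rw [List.length_nil] at h1
    omega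
  obtain ⟨c, Λ₀, L, hc, hF, ⟨w, hw, hfe⟩, hd, he, hp⟩ := exists_list l hl
  rw [h.1] at hF he
  have hc0 : (c : ℂ) ≠ 0 := Complex.ofReal_ne_zero.2 hc.ne'
  have hA := lev_pos l
  have hA0 : (lev l : ℂ) ≠ 0 := by exact_mod_cast (show lev l ≠ 0 by omega)
  have heul : ∀ s : ℂ, 3 / 2 < s.re → HasProd (fun v : HeightOneSpectrum (𝓞 K) => localFactor W v s) (L s) := by
    intro s hs
    rw [hp s hs]
    exact h.2 s hs
  obtain ⟨Λ, hΛ⟩ : ∃ Λ : ℂ → ℂ, Λ = fun s => c * Λ₀ (s - 1 / 2) := ⟨_, rfl⟩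
  have hΛd : Differentiable ℂ Λ := by
    rw [hΛ]
    exact (hF.cls.diff.comp (by fun_prop)).const_mul _
  have heq : ∀ s : ℂ, 1 / 2 < s.re → Λ s =
      (lev l : ℂ) ^ (s / 2) * ((2 * (Real.pi : ℂ)) ^ (-s) * Gamma s) ^ Module.finrank ℚ K * L s := by
    intro s hs
    rw [hΛ]
    exact he s hs
  have hne : ∀ s : ℂ, 3 / 2 < s.re → Λ s ≠ 0 := by
    intro s hs h0
    obtain ⟨v, H, X, Z, hv, hX, g, hst, -⟩ := hF.data
    have h1 : X (s - 1) = 0 := by
      rw [hX]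
      have e : (1 / 2 : ℂ) + (s - 1) = s - 1 / 2 := by ring
      rw [e]
      rw [hΛ] at h0
      rw [(mul_eq_zero.1 h0).resolve_left hc0, mul_zero]
    have h2 := hst _ h1
    rw [abs_le] at h2
    have h3 : (s - 1).re = s.re - 1 := by simp
    rw [h3] at h2
    linarith [h2.2]
  have hreal : ∀ s : ℂ, conj (Λ (conj s)) = Λ s := by
    have hd' : Differentiable ℂ (fun s => conj (Λ (conj s))) := by
      intro s
      have h := (hΛd (conj s)).conj_conj
      rw [Complex.conj_conj] at h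
      exact h
    have h1 : (fun s => conj (Λ (conj s))) = Λ := by
      refine Pool.Agent.W355.UN.Pk.uniq (G := Λ) hΛd hd' ⟨0, fun s _ => rfl⟩ ⟨1, fun s hs => ?_⟩
      have h2 : 1 / 2 < (conj s).re := by
        rw [Complex.conj_re]
        linarith
      have hcp : ∀ (x : ℝ) (z : ℂ), 0 ≤ x → conj ((x : ℂ) ^ z) = (x : ℂ) ^ (conj z) := by
        intro x z hx
        have h := Complex.cpow_conj (x : ℂ) z (by
          rw [Complex.arg_ofReal_of_nonneg hx]
          exact Real.pi_pos.ne)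
        rw [Complex.conj_ofReal] at h
        exact h.symm
      have e1 : conj ((lev l : ℂ) ^ (conj s / 2)) = (lev l : ℂ) ^ (s / 2) := by
        have h := hcp (lev l : ℝ) (conj s / 2) (Nat.cast_nonneg _)
        rw [Complex.ofReal_natCast] at h
        rw [h, map_div₀, Complex.conj_conj, map_ofNat]
      have e2 : conj ((2 * (Real.pi : ℂ)) ^ (-(conj s))) = (2 * (Real.pi : ℂ)) ^ (-s) := by
        have h := hcp (2 * Real.pi) (-(conj s)) (by positivity)
        push_cast at h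
        rw [h, map_neg, Complex.conj_conj]
      rw [heq _ h2, heq s (by linarith), map_mul, map_mul, map_pow, map_mul, e1, e2, ← Complex.Gamma_conj,
        Complex.conj_conj, L_conj hd heul]
    exact fun s => congrFun h1 s
  have hfeΛ : ∀ s : ℂ, Λ (2 - s) = w * Λ s := by
    intro s
    have h1 : Λ (2 - s) = w * conj (Λ (conj s)) := by
      rw [hΛ]
      simp only
      have e : (2 - s - 1 / 2 : ℂ) = 1 - (s - 1 / 2) := by ring
      rw [e, hfe, map_mul, Complex.conj_ofReal, map_sub]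
      have e2 : (conj (1 / 2 : ℂ)) = 1 / 2 := by
        rw [map_div₀, map_one, map_ofNat]
      rw [e2]
      ring
    rw [h1, hreal]
  have hw2 : w ^ 2 = 1 := by
    have h1 : Λ 2 ≠ 0 := hne 2 (by norm_num)
    have h2 : Λ 2 = w * (w * Λ 2) := by
      rw [← hfeΛ 2, ← hfeΛ (2 - 2)]
      norm_num
    have h3 : (w ^ 2 - 1) * Λ 2 = 0 := by linear_combination -h2
    exact sub_eq_zero.1 ((mul_eq_zero.1 h3).resolve_right h1)
  have hfin : IsCompleted W (lev l) L Λ := by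
    refine ⟨hA, hd, hΛd, heul, heq, ?_⟩
    rcases sq_eq_one_iff.1 hw2 with h1 | h1
    · exact ⟨1, Or.inl rfl, fun s => by rw [hfeΛ, h1]; push_cast; rfl⟩
    · exact ⟨-1, Or.inr rfl, fun s => by rw [hfeΛ, h1]; push_cast; rfl⟩
  refine ⟨lev l, c, Λ₀, L, hc, hF, ?_⟩
  rw [← hΛ]
  refine ⟨hfin, fun A' L' Λ' h' => ?_⟩
  have hL' : L' = L := by
    refine Pool.Agent.W355.UN.Pk.uniq (G := L) hd h'.entire_L ⟨0, fun s _ => rfl⟩ ⟨2, fun s hs => ?_⟩
    exact (h'.euler s (by linarith)).unique (heul s (by linarith))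
  have hA'0 : (A' : ℂ) ≠ 0 := by
    have := h'.pos
    exact_mod_cast (show A' ≠ 0 by omega)
  have hcross : ∀ s : ℂ, Λ' s * (lev l : ℂ) ^ (s / 2) = Λ s * (A' : ℂ) ^ (s / 2) := by
    have d1 : Differentiable ℂ (fun s : ℂ => (lev l : ℂ) ^ (s / 2)) := fun z =>
      DifferentiableAt.const_cpow (by fun_prop) (Or.inl hA0)
    have d2 : Differentiable ℂ (fun s : ℂ => (A' : ℂ) ^ (s / 2)) := fun z =>
      DifferentiableAt.const_cpow (by fun_prop) (Or.inl hA'0)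
    have h1 : (fun s => Λ' s * (lev l : ℂ) ^ (s / 2)) = fun s => Λ s * (A' : ℂ) ^ (s / 2) := by
      refine Pool.Agent.W355.UN.Pk.uniq (G := fun s => Λ s * (A' : ℂ) ^ (s / 2)) (hΛd.mul d2) (h'.entire.mul d1)
        ⟨0, fun s _ => rfl⟩ ⟨1, fun s hs => ?_⟩
      rw [h'.eq s (by linarith), heq s (by linarith), hL']
      ring
    exact fun s => congrFun h1 s
  obtain ⟨w', hw', hfe'⟩ := h'.fe
  have hAA : A' = lev l := by
    have k1 := congrArg norm (hcross 3)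
    have k2 := congrArg norm (hcross (2 - 3))
    rw [hfe' 3, hfeΛ 3, norm_mul, norm_mul, norm_mul, norm_mul, hw] at k2
    rw [norm_mul, norm_mul] at k1
    have hw'1 : ‖(w' : ℂ)‖ = 1 := by
      rcases hw' with h | h <;> rw [h] <;> simp
    rw [hw'1, one_mul, one_mul] at k2
    have hp1 : (0 : ℝ) < lev l := by exact_mod_cast hA
    have hp2 : (0 : ℝ) < A' := by exact_mod_cast h'.pos
    have n1 : ∀ (m : ℕ) (z : ℂ), 0 < m → ‖(m : ℂ) ^ z‖ = (m : ℝ) ^ z.re := fun m z hm =>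
      Complex.norm_natCast_cpow_of_pos hm z
    rw [n1 _ _ hA, n1 _ _ h'.pos] at k1 k2
    have r1 : ((3 : ℂ) / 2).re = 3 / 2 := by norm_num
    have r2 : (((2 : ℂ) - 3) / 2).re = -(1 / 2) := by norm_num
    rw [r1] at k1
    rw [r2] at k2
    have hx : ‖Λ 3‖ ≠ 0 := norm_ne_zero_iff.2 (hne 3 (by norm_num))
    have n2 : ∀ x : ℝ, 0 < x → x ^ (3 / 2 : ℝ) = x ^ (-(1 / 2) : ℝ) * x ^ 2 := by
      intro x hx0
      rw [← Real.rpow_natCast x 2, ← Real.rpow_add hx0]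
      norm_num
    rw [n2 _ hp1, n2 _ hp2, ← mul_assoc, ← mul_assoc, k2] at k1
    have hx2 : ‖Λ 3‖ * (A' : ℝ) ^ (-(1 / 2) : ℝ) ≠ 0 := mul_ne_zero hx (Real.rpow_pos_of_pos hp2 _).ne'
    have k3 := mul_left_cancel₀ hx2 k1
    have k4 : (lev l : ℝ) = A' := (pow_left_inj₀ hp1.le hp2.le (by norm_num)).1 k3
    exact_mod_cast k4.symm
  refine ⟨hAA, hL', ?_⟩
  funext s
  have h1 := hcross s
  rw [hAA] at h1
  refine mul_right_cancel₀ ?_ h1
  rw [Ne, Complex.cpow_eq_zero_iff]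
  exact fun h => hA0 h.1

end curve

end Pool.Agent.Q246.EL
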