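import Mathlib

/-!
# Elliptic curves over number fields and newforms of weight two: definitions

The Hasse-Weil L-function of an elliptic curve over a number field (local factors from minimal models, as in
the starting file `Pool.Agent.Results.MP_fb225e_nt.UniformHeatDerivatives`), newforms of weight two with
nebentypus, and the pairs `(E, K)` for which `L(E/K, s)` is a product of L-functions of newforms of weight
two.
-/

set_option autoImplicit false

open Complex UpperHalfPlane MatrixGroups CongruenceSubgroup NumberField IsDedekindDomain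
open scoped ComplexConjugate

namespace Pool.Agent.Q246.EL

/-! ### Newforms of weight two -/

/-- The `n`-th Fourier coefficient `a(n)` of `f(τ) = ∑ a(n) e^(2πinτ)`. -/
noncomputable def a {N : ℕ} (f : CuspForm (Gamma1 N : Subgroup (GL (Fin 2) ℝ)) 2) (n : ℕ) : ℂ :=
  (qExpansion 1 f).coeff n

/-- `f` is a newform of weight two, level `N` and nebentypus `ψ`; the properties that are used:
`f(γτ) = ψ(d) (cτ+d)² f(τ)` for `γ = (a b; c d)` in `Γ₀(N)`, `a(1) = 1`, the Hecke relations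
`a(mn) = a(m) a(n)` for coprime `m`, `n` and `a(p^(j+2)) = a(p) a(p^(j+1)) - ψ(p) p a(p^j)`,
`conj a(n) = conj ψ(n) a(n)` for `n` prime to `N`, and the Fricke involution `τ ↦ -1 / (N τ)` maps `f` to a
multiple, by a number `w` of absolute value one, of the form `τ ↦ conj f(-conj τ)` with the conjugate
Fourier coefficients. -/
structure IsNewform (N : ℕ) (ψ : DirichletCharacter ℂ N)
    (f : CuspForm (Gamma1 N : Subgroup (GL (Fin 2) ℝ)) 2) : Prop where
  neb : ∀ γ : SL(2, ℤ), γ ∈ Gamma0 N → ∀ τ : ℍ,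
    f (γ • τ) = ψ ((γ 1 1 : ℤ) : ZMod N) * denom γ τ ^ 2 * f τ
  one : a f 1 = 1
  mul : ∀ m n : ℕ, Nat.Coprime m n → a f (m * n) = a f m * a f n
  pow : ∀ p j : ℕ, p.Prime → a f (p ^ (j + 2)) = a f p * a f (p ^ (j + 1)) -
    ψ (p : ZMod N) * (p : ℂ) * a f (p ^ j)
  real : ∀ n : ℕ, Nat.Coprime n N → conj (a f n) = conj (ψ (n : ZMod N)) * a f n
  fricke : ∃ w : ℂ, ‖w‖ = 1 ∧
    ∀ τ τ' τ'' : ℍ, (τ' : ℂ) * ((N : ℂ) * (τ : ℂ)) = -1 → (τ'' : ℂ) = -conj (τ : ℂ) →
      f τ' = w * ((Real.sqrt N : ℝ) * (τ : ℂ)) ^ 2 * conj (f τ'')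

/-- A newform `f` of weight two, of some level `N ≥ 1` and nebentypus `ψ`. -/
structure Newform where
  /-- the level -/
  N : ℕ
  N_pos : 1 ≤ N
  /-- the nebentypus -/
  ψ : DirichletCharacter ℂ N
  /-- the form -/
  f : CuspForm (Gamma1 N : Subgroup (GL (Fin 2) ℝ)) 2
  isNewform : IsNewform N ψ f

/-- The L-function `L(g, s) = ∑ a(n) n^(-s)` of a newform of weight two, for `Re s > 3/2`. -/
noncomputable def Newform.L (g : Newform) (s : ℂ) : ℂ := LSeries (a g.f) s

/-! ### Elliptic curves over number fields -/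

section curve
variable {K : Type} [Field K] [NumberField K]

/-- `W v` is, for every finite place `v` of `K`, an integral model of `E` with discriminant minimal at
`v`. -/
def MinimalModels (E : WeierstrassCurve K) (W : HeightOneSpectrum (𝓞 K) → WeierstrassCurve (𝓞 K)) : Prop :=
  ∀ v : HeightOneSpectrum (𝓞 K),
    (∃ C : WeierstrassCurve.VariableChange K, C • (W v).map (algebraMap (𝓞 K) K) = E) ∧
    ∀ W' : WeierstrassCurve (𝓞 K),
      (∃ C : WeierstrassCurve.VariableChange K, C • W'.map (algebraMap (𝓞 K) K) = E) →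
      ∀ n : ℕ, (W v).Δ ∈ v.asIdeal ^ n → W'.Δ ∈ v.asIdeal ^ n

open Classical in
/-- The Euler factor of `E` at `v`: `(1 - a_v Nv^(-s) + Nv^(1-2s))⁻¹` if the reduction at `v` is good and
`(1 - a_v Nv^(-s))⁻¹` if it is bad, where `a_v` is `Nv` minus the number of affine points of the
reduction of `W v` (so `a_v = Nv + 1 - #E(k_v)` for good `v`, and `a_v = 1, -1, 0` for split
multiplicative, non-split multiplicative, additive reduction). -/
noncomputable def localFactor (W : HeightOneSpectrum (𝓞 K) → WeierstrassCurve (𝓞 K))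
    (v : HeightOneSpectrum (𝓞 K)) (s : ℂ) : ℂ :=
  (1 - ((Ideal.absNorm v.asIdeal : ℂ)
        - (Nat.card {xy : (𝓞 K ⧸ v.asIdeal) × (𝓞 K ⧸ v.asIdeal) //
            ((W v).map (Ideal.Quotient.mk v.asIdeal)).toAffine.Equation xy.1 xy.2} : ℂ))
        * (Ideal.absNorm v.asIdeal : ℂ) ^ (-s)
    + (if (W v).Δ ∈ v.asIdeal then 0 else (Ideal.absNorm v.asIdeal : ℂ))
        * (Ideal.absNorm v.asIdeal : ℂ) ^ (-2 * s))⁻¹

/-- `L(E/K, s)` is, for `Re s > 3/2`, the product of the L-functions of `[K : ℚ]` newforms of weight two (the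
list `l`): the Euler product of `E/K` over the finite places of `K` converges (unconditionally) to
`∏ L(g, s)`. -/
def Attached (W : HeightOneSpectrum (𝓞 K) → WeierstrassCurve (𝓞 K)) (l : List Newform) : Prop :=
  l.length = Module.finrank ℚ K ∧ ∀ s : ℂ, 3 / 2 < s.re →
    HasProd (fun v : HeightOneSpectrum (𝓞 K) => localFactor W v s) (l.map fun g => g.L s).prod

/-- `L` is the L-function `L(E/K, s)` and `Λ` the completed L-function `Λ(E/K, s)`, of conductor `A`: `L` is
entire and given by the Euler product for `Re s > 3/2`; `Λ` is entire,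
`Λ(s) = A^(s/2) ((2π)^(-s) Γ(s))^[K : ℚ] L(s)` for `Re s > 1/2`, and `Λ(2 - s) = ± Λ(s)`. -/
structure IsCompleted (W : HeightOneSpectrum (𝓞 K) → WeierstrassCurve (𝓞 K)) (A : ℕ) (L Λ : ℂ → ℂ) :
    Prop where
  pos : 1 ≤ A
  entire_L : Differentiable ℂ L
  entire : Differentiable ℂ Λ
  euler : ∀ s : ℂ, 3 / 2 < s.re → HasProd (fun v : HeightOneSpectrum (𝓞 K) => localFactor W v s) (L s)
  eq : ∀ s : ℂ, 1 / 2 < s.re →
    Λ s = (A : ℂ) ^ (s / 2) * ((2 * (Real.pi : ℂ)) ^ (-s) * Gamma s) ^ Module.finrank ℚ K * L s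
  fe : ∃ w : ℤ, (w = 1 ∨ w = -1) ∧ ∀ s : ℂ, Λ (2 - s) = w * Λ s

/-- `IsCompleted` with uniqueness: `A`, `L` and `Λ` are determined by `E`. -/
def IsTheCompleted (W : HeightOneSpectrum (𝓞 K) → WeierstrassCurve (𝓞 K)) (A : ℕ) (L Λ : ℂ → ℂ) : Prop :=
  IsCompleted W A L Λ ∧ ∀ (A' : ℕ) (L' Λ' : ℂ → ℂ), IsCompleted W A' L' Λ' → A' = A ∧ L' = L ∧ Λ' = Λ

end curve

end Pool.Agent.Q246.EL
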